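import Pool.Agent.H14R3.KK.Defs
import Pool.Agent.H14R3.KK.S.LMAXP
import Pool.Agent.H14R3.KK.S.INTEG
import Pool.Agent.H14R3.KK.S.WICK
import Pool.Agent.H14R3.KK.S.PATHB

/-! Task EUPP of project KK (MP_d47e08_pr). -/

set_option autoImplicit false
open MeasureTheory ProbabilityTheory Filter Topology

namespace KK14

namespace EUPPx

theorem kik_symm (n r l : ℕ) (lam : ℝ) (Z : Sub n r → ℝ) :
    (kik n r l lam Z).transpose = kik n r l lam Z := by
  ext I J
  rw [Matrix.transpose_apply]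
  unfold kik
  by_cases h : (symmDiff J.1 I.1).card = r
  · have h' : (symmDiff I.1 J.1).card = r := by rw [symmDiff_comm]; exact h
    rw [dif_pos h, dif_pos h']
    congr 2
    exact Subtype.ext (symmDiff_comm _ _)
  · have h' : ¬ (symmDiff I.1 J.1).card = r := by rw [symmDiff_comm]; exact h
    rw [dif_neg h, dif_neg h']

theorem nonempty_sub {n l : ℕ} (hn : l ≤ n) : Nonempty (Sub n l) := by
  have h : l ≤ (Finset.univ : Finset (Fin n)).card := by
    rw [Finset.card_univ, Fintype.card_fin]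
    exact hn
  obtain ⟨I, -, hI⟩ := Finset.exists_subset_card_eq h
  exact ⟨⟨I, hI⟩⟩

theorem card_sub (n l : ℕ) : Fintype.card (Sub n l) = n.choose l := by
  rw [Fintype.card_finset_len, Fintype.card_fin]

theorem inv_zero {n r : ℕ} (I : Finset (Fin n)) :
    Inv (r := r) I (0 : Sub n r → ℕ) I (fun _ => 0) where
  sub := subset_rfl
  out := fun x _ => by simp [occ]
  pres := fun x _ => by simp [occ]
  abse := fun x _ => by simp [occ]

instance (n r : ℕ) : IsProbabilityMeasure (gau n r) := by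
  unfold gau
  infer_instance

end EUPPx

open EUPPx in
theorem EUPP (n q l p : ℕ) (hq : 1 ≤ q) (hl : q ≤ l) (hn : l ≤ n) (hp : 1 ≤ p) :
    Elm n (2 * q) l 0 ^ (2 * p) ≤ (n.choose l : ℝ) *
      (2 * √(PP n q l * (l / q)) * TH n q l (2 * p)) ^ (2 * p) := by
  have := nonempty_sub hn
  obtain ⟨-, hint, hmom⟩ := INTEG n (2 * q) l 0
  have heven : Even (2 * p) := even_two_mul p
  have habs : ∀ x : ℝ, |x| ^ (2 * p) = x ^ (2 * p) := fun x => heven.pow_abs x
  have hmom' : Integrable (fun Z => lmax (kik n (2 * q) l 0 Z) ^ (2 * p)) (gau n (2 * q)) := by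
    have := hmom (2 * p)
    simpa only [habs] using this
  -- Jensen
  have hJ : Elm n (2 * q) l 0 ^ (2 * p) ≤
      ∫ Z, lmax (kik n (2 * q) l 0 Z) ^ (2 * p) ∂(gau n (2 * q)) := by
    unfold Elm
    exact (heven.convexOn_pow (𝕜 := ℝ)).map_integral_le (f := fun Z => lmax (kik n (2 * q) l 0 Z))
      (continuous_pow _).continuousOn isClosed_univ
      (Filter.Eventually.of_forall fun _ => Set.mem_univ _) hint hmom'
  -- Wick
  have hW : ∀ I : Sub n l,
      Integrable (fun Z => ((kik n (2 * q) l 0 Z) ^ (2 * p)) I I) (gau n (2 * q)) ∧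
      ∫ Z, ((kik n (2 * q) l 0 Z) ^ (2 * p)) I I ∂(gau n (2 * q)) =
        w n (2 * q) l (2 * p) I I 0 := by
    intro I
    have h := WICK n (2 * q) l (2 * p) I I 0
    have e : ∀ Z : Sub n (2 * q) → ℝ,
        ((kik n (2 * q) l 0 Z) ^ (2 * p)) I I * ∏ S, He ((0 : Sub n (2 * q) → ℕ) S) (Z S) =
          ((kik n (2 * q) l 0 Z) ^ (2 * p)) I I := by
      intro Z
      have : ∏ S, He ((0 : Sub n (2 * q) → ℕ) S) (Z S) = 1 := by
        apply Finset.prod_eq_one
        intro S _
        rfl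
      rw [this, mul_one]
    simp only [e] at h
    exact h
  have hTr : Integrable (fun Z => ((kik n (2 * q) l 0 Z) ^ (2 * p)).trace) (gau n (2 * q)) := by
    unfold Matrix.trace
    exact integrable_finsetSum _ fun I _ => (hW I).1
  have hle : ∫ Z, lmax (kik n (2 * q) l 0 Z) ^ (2 * p) ∂(gau n (2 * q)) ≤
      ∫ Z, ((kik n (2 * q) l 0 Z) ^ (2 * p)).trace ∂(gau n (2 * q)) := by
    apply integral_mono hmom' hTr
    intro Z
    have := LMAXP (kik n (2 * q) l 0 Z) (kik_symm n (2 * q) l 0 Z) p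
    rw [habs] at this
    exact this
  have hsum : ∫ Z, ((kik n (2 * q) l 0 Z) ^ (2 * p)).trace ∂(gau n (2 * q)) =
      ∑ I : Sub n l, w n (2 * q) l (2 * p) I I 0 := by
    unfold Matrix.trace
    simp only [Matrix.diag_apply]
    rw [integral_finsetSum _ fun I _ => (hW I).1]
    exact Finset.sum_congr rfl fun I _ => (hW I).2
  -- paths
  have hP : ∀ I : Sub n l, w n (2 * q) l (2 * p) I I 0 ≤
      (2 * √(PP n q l * (l / q)) * TH n q l (2 * p)) ^ (2 * p) := by
    intro I
    have h := PATHB n q l (2 * p) hq hl (by omega) (2 * p) le_rfl I I 0 I.1 (fun _ => 0)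
      (inv_zero I.1) (by rw [I.2])
    refine h.trans (le_of_eq ?_)
    simp
  calc Elm n (2 * q) l 0 ^ (2 * p) ≤ ∑ I : Sub n l, w n (2 * q) l (2 * p) I I 0 :=
        hJ.trans (hle.trans hsum.le)
    _ ≤ ∑ _I : Sub n l, (2 * √(PP n q l * (l / q)) * TH n q l (2 * p)) ^ (2 * p) :=
        Finset.sum_le_sum fun I _ => hP I
    _ = _ := by
        rw [Finset.sum_const, Finset.card_univ, card_sub, nsmul_eq_mul]

end KK14
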